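import Mathlib

set_option autoImplicit false

/-! Project SHR: the logarithm of the zeta function near `1`. -/

namespace Pool.Agent.Y901.SHR

open Filter Topology

noncomputable section

/-- the logarithm of the zeta function -/
def Lz (s : ℂ) : ℂ := ∑' p : Nat.Primes, -Complex.log (1 - ((p : ℕ) : ℂ) ^ (-s))

theorem norm_pw (s : ℂ) (p : Nat.Primes) : ‖((p : ℕ) : ℂ) ^ (-s)‖ = ((p : ℕ) : ℝ) ^ (-s.re) := by
  rw [Complex.norm_natCast_cpow_of_pos p.2.pos, Complex.neg_re]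

theorem pw_le {s : ℂ} (hs : 1 < s.re) (p : Nat.Primes) : ‖((p : ℕ) : ℂ) ^ (-s)‖ ≤ 1 / 2 := by
  rw [norm_pw]
  have h2 : (2 : ℝ) ≤ ((p : ℕ) : ℝ) := by exact_mod_cast p.2.two_le
  calc ((p : ℕ) : ℝ) ^ (-s.re) ≤ ((p : ℕ) : ℝ) ^ (-1 : ℝ) :=
        Real.rpow_le_rpow_of_exponent_le (by linarith) (by linarith)
    _ = 1 / ((p : ℕ) : ℝ) := by rw [Real.rpow_neg_one, one_div]
    _ ≤ 1 / 2 := one_div_le_one_div_of_le (by norm_num) h2

theorem log_le {w : ℂ} (hw : ‖w‖ ≤ 1 / 2) : ‖-Complex.log (1 - w)‖ ≤ 3 / 2 * ‖w‖ := by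
  rw [norm_neg]
  have h := Complex.norm_log_one_add_half_le_self (z := -w) (by rw [norm_neg]; exact hw)
  rw [norm_neg, ← sub_eq_add_neg] at h
  exact h

theorem pw_summable {σ : ℝ} (hσ : 1 < σ) :
    Summable fun p : Nat.Primes => ((p : ℕ) : ℝ) ^ (-σ) := by
  have h := (Real.summable_nat_rpow (p := -σ)).2 (by linarith)
  exact h.comp_injective Nat.Primes.coe_nat_injective

theorem Lz_summable {s : ℂ} (hs : 1 < s.re) :
    Summable fun p : Nat.Primes => -Complex.log (1 - ((p : ℕ) : ℂ) ^ (-s)) := by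
  refine Summable.of_norm_bounded ((pw_summable hs).mul_left (3 / 2)) fun p => ?_
  refine (log_le (pw_le hs p)).trans ?_
  rw [norm_pw]

theorem exp_Lz {s : ℂ} (hs : 1 < s.re) : Complex.exp (Lz s) = riemannZeta s :=
  riemannZeta_eulerProduct_exp_log hs

/-- `L(σ)` is real for real `σ` -/
theorem Lz_im {σ : ℝ} (hσ : 1 < σ) : (Lz (σ : ℂ)).im = 0 := by
  have h1 : Lz (σ : ℂ) = ((∑' p : Nat.Primes, -Real.log (1 - ((p : ℕ) : ℝ) ^ (-σ)) : ℝ) : ℂ) := by
    rw [Complex.ofReal_tsum]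
    refine tsum_congr fun p => ?_
    have h2 : (0 : ℝ) ≤ 1 - ((p : ℕ) : ℝ) ^ (-σ) := by
      have h3 := pw_le (s := (σ : ℂ)) (by simpa using hσ) p
      rw [norm_pw] at h3
      simp only [Complex.ofReal_re] at h3
      linarith
    rw [Complex.ofReal_neg, Complex.ofReal_log h2]
    congr 2
    push_cast
    rw [Complex.ofReal_cpow (Nat.cast_nonneg _)]
    push_cast
    rfl
  rw [h1, Complex.ofReal_im]

/-- continuity along a vertical segment -/
theorem Lz_cont {σ : ℝ} (hσ : 1 < σ) : Continuous fun t : ℝ => Lz ((σ : ℂ) + (t : ℂ) * Complex.I) := by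
  unfold Lz
  refine continuous_tsum (u := fun p : Nat.Primes => 3 / 2 * ((p : ℕ) : ℝ) ^ (-σ)) ?_
    ((pw_summable hσ).mul_left (3 / 2)) ?_
  · intro p
    have hre : ∀ t : ℝ, ((σ : ℂ) + (t : ℂ) * Complex.I).re = σ := by
      intro t
      simp
    refine Continuous.neg ?_
    refine Continuous.clog ?_ ?_
    · refine continuous_const.sub ?_
      refine Continuous.const_cpow (by fun_prop) (Or.inl ?_)
      exact_mod_cast p.2.ne_zero
    · intro t
      left
      have h1 := pw_le (s := (σ : ℂ) + (t : ℂ) * Complex.I) (by rw [hre]; exact hσ) p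
      have h2 := Complex.re_le_norm (((p : ℕ) : ℂ) ^ (-((σ : ℂ) + (t : ℂ) * Complex.I)))
      rw [Complex.sub_re, Complex.one_re]
      linarith
  · intro p t
    have hre : ((σ : ℂ) + (t : ℂ) * Complex.I).re = σ := by simp
    refine (log_le (pw_le (by rw [hre]; exact hσ) p)).trans ?_
    rw [norm_pw, hre]

/-- the logarithm of `s - 1` times zeta -/
def ff (w : ℂ) : ℂ := Lz (1 + w) + Complex.log w

theorem exp_ff {w : ℂ} (hw : 0 < w.re) : Complex.exp (ff w) = w * riemannZeta (1 + w) := by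
  unfold ff
  have hw0 : w ≠ 0 := by
    rintro rfl
    simp at hw
  rw [Complex.exp_add, exp_Lz (by simpa using hw), Complex.exp_log hw0, mul_comm]

theorem near {τ : ℝ} : ∃ δ : ℝ, 0 < δ ∧ ∀ x : ℝ, 0 < x → x < δ → ∀ t : ℝ, |t| ≤ |τ| →
    ‖Complex.exp (ff ((x : ℂ) * (2 + (t : ℂ) * Complex.I))) - 1‖ < 1 / 2 := by
  have h1 := riemannZeta_residue_one
  rw [Metric.tendsto_nhdsWithin_nhds] at h1
  obtain ⟨δ, hδ, h2⟩ := h1 (1 / 2) (by norm_num)
  refine ⟨δ / (2 + |τ|), by positivity, fun x hx hxδ t ht => ?_⟩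
  obtain ⟨w, hw⟩ : ∃ w : ℂ, w = (x : ℂ) * (2 + (t : ℂ) * Complex.I) := ⟨_, rfl⟩
  have hre : w.re = 2 * x := by
    rw [hw]
    simp
    ring
  have hre' : 0 < w.re := by rw [hre]; positivity
  have hw0 : w ≠ 0 := by
    rintro rfl
    simp at hre'
  have hn : ‖w‖ < δ := by
    rw [hw, norm_mul, Complex.norm_real, Real.norm_of_nonneg hx.le]
    have h3 : ‖(2 : ℂ) + (t : ℂ) * Complex.I‖ ≤ 2 + |τ| := by
      refine (norm_add_le _ _).trans ?_
      rw [norm_mul, Complex.norm_I, mul_one, Complex.norm_real, Real.norm_eq_abs]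
      have : ‖(2 : ℂ)‖ = 2 := by simp
      rw [this]
      linarith
    have h4 : 0 < 2 + |τ| := by positivity
    rw [lt_div_iff₀ h4] at hxδ
    nlinarith
  rw [← hw, exp_ff hre']
  have h3 := h2 (x := 1 + w) (by
    intro h
    have : (1 : ℂ) + w = 1 := h
    exact hw0 (by linear_combination this)) (by
    rw [dist_eq_norm, add_sub_cancel_left]
    exact hn)
  rw [dist_eq_norm, add_sub_cancel_left] at h3
  exact h3

theorem im_ff_lt {τ : ℝ} : ∃ δ : ℝ, 0 < δ ∧ ∀ x : ℝ, 0 < x → x < δ →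
    |(ff ((x : ℂ) * (2 + (τ : ℂ) * Complex.I))).im| < Real.pi / 2 := by
  obtain ⟨δ, hδ, h1⟩ := near (τ := τ)
  refine ⟨δ, hδ, fun x hx hxδ => ?_⟩
  obtain ⟨g, hg⟩ : ∃ g : ℝ → ℝ, ∀ u, g u =
      (ff ((x : ℂ) * (2 + ((u * τ : ℝ) : ℂ) * Complex.I))).im := ⟨_, fun u => rfl⟩
  have hcont : Continuous g := by
    have e1 : g = fun u => (Lz (((1 + 2 * x : ℝ) : ℂ) + ((x * (u * τ) : ℝ) : ℂ) * Complex.I) +
        Complex.log ((x : ℂ) * (2 + ((u * τ : ℝ) : ℂ) * Complex.I))).im := by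
      funext u
      rw [hg]
      unfold ff
      congr 3
      push_cast
      ring_nf
    rw [e1]
    refine Complex.continuous_im.comp (Continuous.add ?_ ?_)
    · exact (Lz_cont (σ := 1 + 2 * x) (by linarith)).comp (f := fun u : ℝ => x * (u * τ))
        (by fun_prop)
    · refine Continuous.clog (by fun_prop) fun u => ?_
      left
      simp
      exact hx
  have hne : ∀ u ∈ Set.Icc (0 : ℝ) 1, |g u| ≠ Real.pi / 2 := by
    rintro u ⟨hu0, hu1⟩ h2
    have h3 := h1 x hx hxδ (u * τ) (by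
      rw [abs_mul, abs_of_nonneg hu0]
      exact mul_le_of_le_one_left (abs_nonneg _) hu1)
    have h4 : (Complex.exp (ff ((x : ℂ) * (2 + ((u * τ : ℝ) : ℂ) * Complex.I)))).re = 0 := by
      rw [Complex.exp_re, ← hg u, ← Real.cos_abs, h2, Real.cos_pi_div_two, mul_zero]
    have h5 := Complex.abs_re_le_norm
      (Complex.exp (ff ((x : ℂ) * (2 + ((u * τ : ℝ) : ℂ) * Complex.I))) - 1)
    rw [Complex.sub_re, h4, Complex.one_re, zero_sub, abs_neg, abs_one] at h5
    linarith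
  have h0 : g 0 = 0 := by
    rw [hg]
    unfold ff
    have e1 : (x : ℂ) * (2 + ((0 * τ : ℝ) : ℂ) * Complex.I) = ((2 * x : ℝ) : ℂ) := by
      push_cast
      ring
    have e2 : (1 : ℂ) + ((2 * x : ℝ) : ℂ) = ((1 + 2 * x : ℝ) : ℂ) := by push_cast; ring
    rw [e1, e2, Complex.add_im, Lz_im (by linarith), ← Complex.ofReal_log (by positivity),
      Complex.ofReal_im, add_zero]
  by_contra hcon
  push Not at hcon
  have h1' : g 1 = (ff ((x : ℂ) * (2 + (τ : ℂ) * Complex.I))).im := by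
    rw [hg, one_mul]
  rw [← h1'] at hcon
  have hpi : 0 ≤ Real.pi / 2 := by positivity
  have h2 := intermediate_value_Icc (zero_le_one (α := ℝ)) (f := fun u => |g u|)
    (continuous_abs.comp hcont).continuousOn
  obtain ⟨u, hu, hu2⟩ := h2 ⟨by simp only [h0, abs_zero]; exact hpi, hcon⟩
  exact hne u hu hu2

/-- the main limit -/
theorem ff_tendsto (τ : ℝ) :
    Tendsto (fun x : ℝ => ff ((x : ℂ) * (2 + (τ : ℂ) * Complex.I))) (𝓝[>] 0) (𝓝 0) := by
  obtain ⟨δ, hδ, h1⟩ := im_ff_lt (τ := τ)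
  have hc : (2 : ℂ) + (τ : ℂ) * Complex.I ≠ 0 := by
    intro h
    have := congrArg Complex.re h
    simp at this
  have hz : Tendsto (fun x : ℝ => ((x : ℂ) * (2 + (τ : ℂ) * Complex.I)) *
      riemannZeta (1 + (x : ℂ) * (2 + (τ : ℂ) * Complex.I))) (𝓝[>] 0) (𝓝 1) := by
    have h2 : Tendsto (fun x : ℝ => 1 + (x : ℂ) * (2 + (τ : ℂ) * Complex.I)) (𝓝[>] 0) (𝓝[≠] 1) := by
      rw [tendsto_nhdsWithin_iff]
      constructor
      · have h2 : Continuous fun x : ℝ => 1 + (x : ℂ) * (2 + (τ : ℂ) * Complex.I) := by fun_prop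
        have h3 := h2.tendsto 0
        rw [Complex.ofReal_zero, zero_mul, add_zero] at h3
        exact h3.mono_left nhdsWithin_le_nhds
      · filter_upwards [self_mem_nhdsWithin] with x hx
        have hx' : (x : ℂ) ≠ 0 := by exact_mod_cast (ne_of_gt hx)
        intro h
        have h3 : 1 + (x : ℂ) * (2 + (τ : ℂ) * Complex.I) = 1 := h
        have h4 : (x : ℂ) * (2 + (τ : ℂ) * Complex.I) = 0 := by linear_combination h3
        exact (mul_ne_zero hx' hc) h4
    have h3 := riemannZeta_residue_one.comp h2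
    refine h3.congr fun x => ?_
    simp only [Function.comp_apply, add_sub_cancel_left]
  have hl : Tendsto (fun x : ℝ => Complex.log (((x : ℂ) * (2 + (τ : ℂ) * Complex.I)) *
      riemannZeta (1 + (x : ℂ) * (2 + (τ : ℂ) * Complex.I)))) (𝓝[>] 0) (𝓝 0) := by
    have h2 := hz.clog (Or.inl (by norm_num))
    rw [Complex.log_one] at h2
    exact h2
  refine hl.congr' ?_
  have hev : ∀ᶠ x : ℝ in 𝓝[>] 0, x < δ := by
    exact nhdsWithin_le_nhds (Iio_mem_nhds hδ)
  filter_upwards [self_mem_nhdsWithin, hev] with x hx hxδ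
  have hx0 : 0 < x := hx
  have hre : 0 < ((x : ℂ) * (2 + (τ : ℂ) * Complex.I)).re := by
    simp
    exact hx0
  rw [← exp_ff hre]
  have h2 := h1 x hx0 hxδ
  rw [abs_lt] at h2
  have hpi := Real.pi_pos
  exact Complex.log_exp (by linarith) (by linarith)

/-- the limit in the form which is used -/
theorem Lz_tendsto (τ : ℝ) : Tendsto (fun x : ℝ => ((Real.log (2 * x) : ℝ) : ℂ) +
    Lz (1 + (2 + Complex.I * (τ : ℂ)) * x)) (𝓝[>] 0)
    (𝓝 (-Complex.log (1 + Complex.I * (τ : ℂ) / 2))) := by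
  have h1 := (ff_tendsto τ).sub_const (Complex.log (1 + Complex.I * (τ : ℂ) / 2))
  rw [zero_sub] at h1
  refine h1.congr' ?_
  filter_upwards [self_mem_nhdsWithin] with x hx
  have hx0 : 0 < x := hx
  have hc : (1 : ℂ) + Complex.I * (τ : ℂ) / 2 ≠ 0 := by
    intro h
    have := congrArg Complex.re h
    simp at this
  unfold ff
  have e1 : (x : ℂ) * (2 + (τ : ℂ) * Complex.I) =
      ((1 : ℂ) + Complex.I * (τ : ℂ) / 2) * ((2 * x : ℝ) : ℂ) := by
    push_cast
    ring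
  have e2 : (1 : ℂ) + (x : ℂ) * (2 + (τ : ℂ) * Complex.I) =
      1 + (2 + Complex.I * (τ : ℂ)) * x := by ring
  rw [e2, e1, Complex.log_mul_ofReal (2 * x) (by positivity) _ hc]
  ring

end

end Pool.Agent.Y901.SHR
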