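import Pool.Agent.Y753.SH.Stm2
import Pool.Agent.Y641.SH.Diag
import Pool.Agent.Y901.SHR.LogZ

set_option autoImplicit false

/-! Project SHR: the diagonal for real exponents; adaptation of the file of helper641. -/

namespace Pool.Agent.Y901.SHR

open Finset Filter Topology
open Pool.Agent.H306R2 (lc dv dA aF lc_nonneg lc_sq_le lc_summable C0 C0_summable C0_nonneg
  inv_prime dvJ_summable dv_sq_le dv_mono dA_zero dA_mul dA_mult dA_apply dv_one lc_one
  dv_prime_pow dv_nonneg aF_multipliable primes_summable)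
open Pool.Agent.Y753.SH
open Pool.Agent.Y641.SH (tz_zero tz_apply tz_one norm_tz tz_mul conj_tz continuous_tz)

noncomputable section

/-! ### The coefficients -/

theorem tk_apply (κ h : ℝ) (n : ℕ) : tk κ h n = (dv κ n : ℂ) * tz h n := rfl

theorem tk_one (κ h : ℝ) : tk κ h 1 = 1 := by
  rw [tk_apply, dv_one, tz_one]
  simp

theorem dv_mul (κ : ℝ) {m n : ℕ} (h : Nat.Coprime m n) : dv κ (m * n) = dv κ m * dv κ n := by
  rw [← dA_apply, (dA_mult κ).map_mul_of_coprime h, dA_apply, dA_apply]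

theorem tk_mult (κ h : ℝ) : (tk κ h).IsMultiplicative := by
  refine ⟨tk_one κ h, fun {m n} hmn => ?_⟩
  rw [tk_apply, tk_apply, tk_apply, tz_mul, dv_mul κ hmn]
  push_cast
  ring

theorem norm_tk_le {κ : ℝ} (hκ : 0 ≤ κ) (h : ℝ) (n : ℕ) : ‖tk κ h n‖ ≤ dv κ n := by
  have h0 := dv_nonneg hκ n
  rw [tk_apply, norm_mul, Complex.norm_real, Real.norm_of_nonneg h0]
  by_cases hn : n = 0
  · subst hn
    rw [tz_zero, norm_zero, mul_zero]
    exact h0
  · rw [norm_tz h hn, mul_one]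

theorem tk_prime (κ h : ℝ) {p : ℕ} (hp : p.Prime) : tk κ h p = (κ : ℂ) * tz h p := by
  have h1 := dv_prime_pow κ hp 1
  rw [pow_one, lc_one] at h1
  rw [tk_apply, h1]

section prod

variable {ι : Type} (s : Finset ι)

theorem prod_mult (κ h : ι → ℝ) : (∏ j ∈ s, tk (κ j) (h j)).IsMultiplicative := by
  classical
  induction s using Finset.induction_on with
  | empty =>
    rw [prod_empty]
    exact ArithmeticFunction.isMultiplicative_one
  | insert a s ha ih =>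
    rw [prod_insert ha]
    exact (tk_mult _ _).mul ih

theorem prod_norm_le (κ h : ι → ℝ) (hκ : ∀ j ∈ s, 0 ≤ κ j) (n : ℕ) :
    ‖(∏ j ∈ s, tk (κ j) (h j)) n‖ ≤ dv (∑ j ∈ s, κ j) n := by
  classical
  induction s using Finset.induction_on generalizing n with
  | empty =>
    rw [prod_empty, sum_empty, ← dA_apply, dA_zero, ArithmeticFunction.one_apply,
      ArithmeticFunction.one_apply]
    split_ifs <;> simp
  | insert a s ha ih =>
    rw [prod_insert ha, sum_insert ha, ← dA_apply, ← dA_mul, ArithmeticFunction.mul_apply,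
      ArithmeticFunction.mul_apply]
    refine (norm_sum_le _ _).trans (sum_le_sum fun x _ => ?_)
    rw [norm_mul, dA_apply, dA_apply]
    exact mul_le_mul (norm_tk_le (hκ a (mem_insert_self a s)) _ _)
      (ih (fun j hj => hκ j (mem_insert_of_mem hj)) _) (norm_nonneg _)
      (dv_nonneg (hκ a (mem_insert_self a s)) _)

theorem prod_continuous (κ c : ι → ℝ) (n : ℕ) :
    Continuous fun x : ℝ => (∏ j ∈ s, tk (κ j) (c j * x)) n := by
  classical
  induction s using Finset.induction_on generalizing n with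
  | empty =>
    simp only [prod_empty]
    exact continuous_const
  | insert a s ha ih =>
    simp only [prod_insert ha, ArithmeticFunction.mul_apply, tk_apply]
    exact continuous_finsetSum _ fun x _ =>
      (continuous_const.mul (continuous_tz _ _)).mul (ih _)

theorem prod_zero_apply (κ c : ι → ℝ) (hc : ∀ j ∈ s, c j = 0) (n : ℕ) :
    (∏ j ∈ s, tk (κ j) (c j)) n = (dv (∑ j ∈ s, κ j) n : ℂ) := by
  classical
  induction s using Finset.induction_on generalizing n with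
  | empty =>
    rw [prod_empty, sum_empty, ← dA_apply, dA_zero, ArithmeticFunction.one_apply,
      ArithmeticFunction.one_apply]
    split_ifs <;> simp
  | insert a s ha ih =>
    rw [prod_insert ha, sum_insert ha, ← dA_apply, ← dA_mul, ArithmeticFunction.mul_apply,
      ArithmeticFunction.mul_apply]
    push_cast
    refine sum_congr rfl fun x _ => ?_
    rw [ih (fun j hj => hc j (mem_insert_of_mem hj)), dA_apply, dA_apply, tk_apply]
    congr 1
    by_cases hx : x.1 = 0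
    · rw [hx, tz_zero, mul_zero, ← dA_apply, ArithmeticFunction.map_zero, Complex.ofReal_zero]
    · rw [tz_apply _ hx, hc a (mem_insert_self a s)]
      simp

theorem prod_prime (κ h : ι → ℝ) {p : ℕ} (hp : p.Prime) :
    (∏ j ∈ s, tk (κ j) (h j)) p = ∑ j ∈ s, (κ j : ℂ) * tz (h j) p := by
  classical
  induction s using Finset.induction_on with
  | empty =>
    rw [prod_empty, sum_empty, ArithmeticFunction.one_apply, if_neg hp.ne_one]
  | insert a s ha ih =>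
    rw [prod_insert ha, sum_insert ha, ArithmeticFunction.mul_apply,
      Nat.sum_divisorsAntidiagonal (fun i j => tk (κ a) (h a) i * (∏ j ∈ s, tk (κ j) (h j)) j),
      hp.sum_divisors]
    rw [Nat.div_self hp.pos, Nat.div_one, tk_one, one_mul, ih, (prod_mult s κ h).map_one, mul_one,
      tk_prime _ _ hp]

end prod

/-! ### The summand -/

variable {k l : ℕ} (κ a : Fin k → ℝ) (ρ b : Fin l → ℝ) {s : ℝ}

/-- the hypotheses -/
structure Hy {k l : ℕ} (κ : Fin k → ℝ) (ρ : Fin l → ℝ) (s : ℝ) : Prop where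
  pos : 0 < s
  k0 : ∀ j, 0 ≤ κ j
  r0 : ∀ i, 0 ≤ ρ i
  ks : ∑ j, κ j = s
  rs : ∑ i, ρ i = s

/-- the summand -/
def Fr (x : ℝ) (n : ℕ) : ℂ :=
  dk x κ a n * (starRingEnd ℂ) (dk x ρ b n) * (((n : ℝ) ^ (-(1 + 2 * x)) : ℝ) : ℂ)

theorem dk_mult (x : ℝ) : (dk x κ a).IsMultiplicative := prod_mult univ _ _

theorem dk_norm (hκ : ∀ j, 0 ≤ κ j) (x : ℝ) (n : ℕ) : ‖dk x κ a n‖ ≤ dv (∑ j, κ j) n :=
  prod_norm_le univ κ (fun j => a j * x) (fun j _ => hκ j) n

theorem Fr_zero (x : ℝ) : Fr κ a ρ b x 0 = 0 := by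
  unfold Fr
  rw [ArithmeticFunction.map_zero, zero_mul, zero_mul]

theorem Fr_one (x : ℝ) : Fr κ a ρ b x 1 = 1 := by
  unfold Fr
  rw [(dk_mult κ a x).map_one, (dk_mult ρ b x).map_one]
  simp

theorem Fr_mult (x : ℝ) {m n : ℕ} (h : Nat.Coprime m n) :
    Fr κ a ρ b x (m * n) = Fr κ a ρ b x m * Fr κ a ρ b x n := by
  unfold Fr
  rw [(dk_mult κ a x).map_mul_of_coprime h, (dk_mult ρ b x).map_mul_of_coprime h, map_mul,
    Nat.cast_mul, Real.mul_rpow (Nat.cast_nonneg _) (Nat.cast_nonneg _)]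
  push_cast
  ring

variable {κ ρ}

theorem Fr_norm (H : Hy κ ρ s) (x : ℝ) (n : ℕ) :
    ‖Fr κ a ρ b x n‖ ≤ dv s n ^ 2 * (n : ℝ) ^ (-(1 + 2 * x)) := by
  unfold Fr
  rw [norm_mul, norm_mul, RCLike.norm_conj, Complex.norm_real,
    Real.norm_of_nonneg (Real.rpow_nonneg (Nat.cast_nonneg _) _)]
  have h1 := dk_norm κ a H.k0 x n
  have h2 := dk_norm ρ b H.r0 x n
  rw [H.ks] at h1
  rw [H.rs] at h2
  refine mul_le_mul_of_nonneg_right ?_ (Real.rpow_nonneg (Nat.cast_nonneg _) _)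
  rw [sq]
  exact mul_le_mul h1 h2 (norm_nonneg _) ((norm_nonneg _).trans h1)

theorem Fr_summable (H : Hy κ ρ s) {x : ℝ} (hx : 0 < x) :
    Summable fun n => ‖Fr κ a ρ b x n‖ := by
  obtain ⟨J, hJ⟩ := exists_nat_ge (s ^ 2)
  refine Summable.of_nonneg_of_le (fun n => norm_nonneg _) (fun n => ?_)
    (dvJ_summable J (σ := 2 * x) (by linarith))
  refine (Fr_norm a b H x n).trans ?_
  rw [show -(1 + 2 * x) = -1 - 2 * x by ring]
  refine mul_le_mul_of_nonneg_right ?_ (Real.rpow_nonneg (Nat.cast_nonneg _) _)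
  exact (dv_sq_le H.pos.le n).trans (dv_mono (by positivity) hJ n)

theorem Fr_pp (H : Hy κ ρ s) {x : ℝ} (hx : 0 ≤ x) {p : ℕ} (hp : p.Prime) (m : ℕ) :
    ‖Fr κ a ρ b x (p ^ m)‖ ≤ lc (s ^ 2) m * (1 / (p : ℝ)) ^ m := by
  refine (Fr_norm a b H x (p ^ m)).trans ?_
  rw [dv_prime_pow _ hp]
  have h1 : (1 : ℝ) ≤ ((p ^ m : ℕ) : ℝ) := by
    exact_mod_cast Nat.one_le_pow _ _ hp.pos
  have h2 : ((p ^ m : ℕ) : ℝ) ^ (-(1 + 2 * x)) ≤ (1 / (p : ℝ)) ^ m := by
    calc ((p ^ m : ℕ) : ℝ) ^ (-(1 + 2 * x)) ≤ ((p ^ m : ℕ) : ℝ) ^ (-1 : ℝ) :=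
          Real.rpow_le_rpow_of_exponent_le h1 (by linarith)
      _ = (1 / (p : ℝ)) ^ m := by
          rw [Real.rpow_neg_one]
          push_cast
          rw [one_div, inv_pow]
  exact mul_le_mul (lc_sq_le H.pos.le m) h2 (Real.rpow_nonneg (Nat.cast_nonneg _) _)
    (lc_nonneg (by positivity) m)

theorem Fr_tendsto (n : ℕ) :
    Tendsto (fun x : ℝ => Fr κ a ρ b x n) (𝓝[>] 0) (𝓝 (Fr κ a ρ b 0 n)) := by
  by_cases hn : n = 0
  · subst hn
    simp only [Fr_zero]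
    exact tendsto_const_nhds
  have h1 : Continuous fun x : ℝ => Fr κ a ρ b x n := by
    unfold Fr dk
    refine ((prod_continuous univ κ a n).mul
      (Complex.continuous_conj.comp (prod_continuous univ ρ b n))).mul
      (Complex.continuous_ofReal.comp ?_)
    refine Continuous.rpow continuous_const ?_ fun x => Or.inl (by exact_mod_cast hn)
    fun_prop
  exact (h1.tendsto 0).mono_left nhdsWithin_le_nhds

variable (κ ρ) in
/-- the local factor -/
def Ef (x : ℝ) (p : ℕ) : ℂ := ∑' m : ℕ, Fr κ a ρ b x (p ^ m)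

theorem Fr_pp_summable (H : Hy κ ρ s) {x : ℝ} (hx : 0 ≤ x) {p : ℕ} (hp : p.Prime) :
    Summable fun m : ℕ => Fr κ a ρ b x (p ^ m) := by
  have hs := H.pos
  have hk' : (0 : ℝ) < s ^ 2 := by positivity
  have hp' := inv_prime hp
  exact Summable.of_norm_bounded (lc_summable hk' hp'.1 (by linarith [hp'.2]))
    fun m => Fr_pp a b H hx hp m

theorem Ef_expand (H : Hy κ ρ s) {x : ℝ} (hx : 0 ≤ x) {p : ℕ} (hp : p.Prime) :
    ‖Ef κ a ρ b x p - (1 + Fr κ a ρ b x p)‖ ≤ C0 s * (1 / (p : ℝ)) ^ 2 := by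
  have hs := H.pos
  have hp' := inv_prime hp
  have hsum := Fr_pp_summable a b H hx hp
  have h1 : Ef κ a ρ b x p - (1 + Fr κ a ρ b x p) = ∑' m : ℕ, Fr κ a ρ b x (p ^ (m + 2)) := by
    unfold Ef
    rw [← hsum.sum_add_tsum_nat_add 2]
    simp only [sum_range_succ, sum_range_zero, pow_zero, pow_one, zero_add, Fr_one]
    ring
  rw [h1]
  unfold C0
  rw [← tsum_mul_right]
  have h2 : Summable fun m : ℕ => lc (s ^ 2) (m + 2) * (1 / 2 : ℝ) ^ m * (1 / (p : ℝ)) ^ 2 :=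
    (C0_summable hs).mul_right _
  refine tsum_of_norm_bounded h2.hasSum fun m => ?_
  refine (Fr_pp a b H hx hp (m + 2)).trans ?_
  rw [pow_add, mul_assoc]
  have h3 : (1 / (p : ℝ)) ^ m ≤ (1 / 2) ^ m := pow_le_pow_left₀ hp'.1.le hp'.2 m
  have h4 := lc_nonneg (α := s ^ 2) (by positivity) (m + 2)
  gcongr

theorem Ef_tendsto (H : Hy κ ρ s) {p : ℕ} (hp : p.Prime) :
    Tendsto (fun x : ℝ => Ef κ a ρ b x p) (𝓝[>] 0) (𝓝 (Ef κ a ρ b 0 p)) := by
  have hs := H.pos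
  have hk' : (0 : ℝ) < s ^ 2 := by positivity
  have hp' := inv_prime hp
  unfold Ef
  refine tendsto_tsum_of_dominated_convergence
    (bound := fun m => lc (s ^ 2) m * (1 / (p : ℝ)) ^ m)
    (lc_summable hk' hp'.1 (by linarith [hp'.2])) (fun m => Fr_tendsto a b _) ?_
  filter_upwards [self_mem_nhdsWithin] with x hx m
  exact Fr_pp a b H (le_of_lt hx) hp m

/-! ### The factors of the zeta functions -/

/-- the term `p ^ (-(1 + c x))` -/
def wf (x : ℝ) (i : Fin k × Fin l) (p : ℕ) : ℂ :=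
  tz (a i.1 * x) p * (starRingEnd ℂ) (tz (b i.2 * x) p) * (((p : ℝ) ^ (-(1 + 2 * x)) : ℝ) : ℂ)

variable (κ ρ) in
/-- the exponents -/
def al (i : Fin k × Fin l) : ℝ := κ i.1 * ρ i.2

theorem al_nonneg (H : Hy κ ρ s) (i : Fin k × Fin l) : 0 ≤ al κ ρ i :=
  mul_nonneg (H.k0 _) (H.r0 _)

theorem al_sum (H : Hy κ ρ s) : ∑ i, al κ ρ i = s ^ 2 := by
  have h1 : s ^ 2 = (∑ j, κ j) * ∑ i, ρ i := by rw [H.ks, H.rs, sq]
  unfold al
  rw [Fintype.sum_prod_type, h1, Finset.sum_mul_sum]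

theorem Fr_prime (x : ℝ) {p : ℕ} (hp : p.Prime) :
    Fr κ a ρ b x p = ∑ i : Fin k × Fin l, (al κ ρ i : ℂ) * wf a b x i p := by
  unfold Fr dk wf al
  rw [prod_prime _ _ _ hp, prod_prime _ _ _ hp, map_sum, Finset.sum_mul_sum, Finset.sum_mul,
    Fintype.sum_prod_type]
  refine sum_congr rfl fun i _ => ?_
  rw [Finset.sum_mul]
  refine sum_congr rfl fun j _ => ?_
  rw [map_mul, Complex.conj_ofReal]
  push_cast
  ring

theorem wf_norm {x : ℝ} (hx : 0 ≤ x) (i : Fin k × Fin l) {p : ℕ} (hp : p.Prime) :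
    ‖wf a b x i p‖ ≤ 1 / (p : ℝ) := by
  unfold wf
  rw [norm_mul, norm_mul, RCLike.norm_conj, norm_tz _ hp.ne_zero, norm_tz _ hp.ne_zero, one_mul,
    one_mul, Complex.norm_real, Real.norm_of_nonneg (Real.rpow_nonneg (Nat.cast_nonneg _) _)]
  have h1 : (1 : ℝ) ≤ (p : ℝ) := by exact_mod_cast hp.one_le
  calc (p : ℝ) ^ (-(1 + 2 * x)) ≤ (p : ℝ) ^ (-1 : ℝ) :=
        Real.rpow_le_rpow_of_exponent_le h1 (by linarith)
    _ = 1 / (p : ℝ) := by rw [Real.rpow_neg_one, one_div]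

theorem wf_tendsto (i : Fin k × Fin l) {p : ℕ} (hp : p.Prime) :
    Tendsto (fun x : ℝ => wf a b x i p) (𝓝[>] 0) (𝓝 (wf a b 0 i p)) := by
  have h1 : Continuous fun x : ℝ => wf a b x i p := by
    unfold wf
    refine ((continuous_tz _ _).mul (Complex.continuous_conj.comp (continuous_tz _ _))).mul
      (Complex.continuous_ofReal.comp ?_)
    refine Continuous.rpow continuous_const ?_ fun x => Or.inl (by exact_mod_cast hp.ne_zero)
    fun_prop
  exact (h1.tendsto 0).mono_left nhdsWithin_le_nhds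

theorem wf_eq (x : ℝ) (i : Fin k × Fin l) {p : ℕ} (hp : p.Prime) :
    wf a b x i p = (p : ℂ) ^ (-(1 + (2 + Complex.I * ((a i.1 - b i.2 : ℝ) : ℂ)) * x)) := by
  have h0 : (p : ℂ) ≠ 0 := by exact_mod_cast hp.ne_zero
  unfold wf
  rw [conj_tz, tz_apply _ hp.ne_zero, tz_apply _ hp.ne_zero,
    Complex.ofReal_cpow (Nat.cast_nonneg p), Complex.ofReal_natCast, ← Complex.cpow_add _ _ h0,
    ← Complex.cpow_add _ _ h0]
  congr 1
  push_cast
  ring

variable (κ ρ) in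
/-- the logarithm of the local correction -/
def zz (x : ℝ) (p : ℕ) : ℂ :=
  ∑ i : Fin k × Fin l, (al κ ρ i : ℂ) * Complex.log (1 - wf a b x i p)

theorem zz_est (H : Hy κ ρ s) {x : ℝ} (hx : 0 ≤ x) {p : ℕ} (hp : p.Prime) :
    ‖zz κ a ρ b x p + Fr κ a ρ b x p‖ ≤ s ^ 2 * (1 / (p : ℝ)) ^ 2 := by
  have hp' := inv_prime hp
  rw [Fr_prime a b x hp]
  unfold zz
  rw [← Finset.sum_add_distrib, ← al_sum H, Finset.sum_mul]
  refine norm_sum_le_of_le _ fun i _ => ?_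
  rw [← mul_add, norm_mul, Complex.norm_real, Real.norm_of_nonneg (al_nonneg H i)]
  refine mul_le_mul_of_nonneg_left ?_ (al_nonneg H i)
  have h1 := wf_norm a b hx i hp
  have h2 : ‖-wf a b x i p‖ ≤ 1 / 2 := by rw [norm_neg]; exact h1.trans hp'.2
  have h3 := Complex.norm_log_one_add_sub_self_le (z := -wf a b x i p) (by linarith)
  rw [← sub_eq_add_neg, sub_neg_eq_add, norm_neg] at h3
  rw [norm_neg] at h2
  refine h3.trans ?_
  have h4 : (1 - ‖wf a b x i p‖)⁻¹ ≤ 2 := by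
    rw [inv_le_comm₀ (by linarith) (by norm_num)]
    linarith
  have h5 : 0 ≤ ‖wf a b x i p‖ := norm_nonneg _
  calc ‖wf a b x i p‖ ^ 2 * (1 - ‖wf a b x i p‖)⁻¹ / 2 ≤ ‖wf a b x i p‖ ^ 2 * 2 / 2 := by
        gcongr
    _ = ‖wf a b x i p‖ ^ 2 := by ring
    _ ≤ (1 / (p : ℝ)) ^ 2 := pow_le_pow_left₀ h5 h1 2

/-- a constant -/
def BB (s : ℝ) : ℝ := s ^ 2 + 4 * s ^ 4 * Real.exp (s ^ 2)

theorem exp_est (H : Hy κ ρ s) {x : ℝ} (hx : 0 ≤ x) {p : ℕ} (hp : p.Prime) :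
    ‖Fr κ a ρ b x p‖ ≤ s ^ 2 * (1 / (p : ℝ)) ∧
    ‖Complex.exp (zz κ a ρ b x p) - (1 - Fr κ a ρ b x p)‖ ≤ BB s * (1 / (p : ℝ)) ^ 2 := by
  have hp' := inv_prime hp
  have hs := H.pos
  have h1 := zz_est a b H hx hp
  have hF : ‖Fr κ a ρ b x p‖ ≤ s ^ 2 * (1 / (p : ℝ)) := by
    rw [Fr_prime a b x hp, ← al_sum H, Finset.sum_mul]
    refine norm_sum_le_of_le _ fun i _ => ?_
    rw [norm_mul, Complex.norm_real, Real.norm_of_nonneg (al_nonneg H i)]
    exact mul_le_mul_of_nonneg_left (wf_norm a b hx i hp) (al_nonneg H i)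
  refine ⟨hF, ?_⟩
  set ε : ℝ := 1 / (p : ℝ) with hε
  set z := zz κ a ρ b x p with hz
  set u := Fr κ a ρ b x p with hu
  have h0 : 0 ≤ ε := hp'.1.le
  have hε2 : ε ≤ 1 / 2 := hp'.2
  have hzn : ‖z‖ ≤ 2 * s ^ 2 * ε := by
    have e1 : z = (z + u) - u := by ring
    calc ‖z‖ = ‖(z + u) - u‖ := by rw [← e1]
      _ ≤ ‖z + u‖ + ‖u‖ := norm_sub_le _ _
      _ ≤ s ^ 2 * ε ^ 2 + s ^ 2 * ε := add_le_add h1 hF
      _ ≤ 2 * s ^ 2 * ε := by
          have : s ^ 2 * ε ^ 2 ≤ s ^ 2 * ε := by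
            refine mul_le_mul_of_nonneg_left ?_ (by positivity)
            nlinarith
          linarith
  have hzn2 : ‖z‖ ≤ s ^ 2 := by
    refine hzn.trans ?_
    have : 0 ≤ s ^ 2 := by positivity
    nlinarith
  have h2 := Complex.norm_exp_sub_sum_le_norm_mul_exp z 2
  simp only [Finset.sum_range_succ, Finset.sum_range_zero, pow_zero, Nat.factorial_zero,
    Nat.cast_one, div_one, zero_add, pow_one, Nat.factorial_one] at h2
  have h3 : ‖z‖ ^ 2 * Real.exp ‖z‖ ≤ 4 * s ^ 4 * Real.exp (s ^ 2) * ε ^ 2 := by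
    have h4 : ‖z‖ ^ 2 ≤ (2 * s ^ 2 * ε) ^ 2 := pow_le_pow_left₀ (norm_nonneg _) hzn 2
    calc ‖z‖ ^ 2 * Real.exp ‖z‖ ≤ (2 * s ^ 2 * ε) ^ 2 * Real.exp (s ^ 2) :=
          mul_le_mul h4 (Real.exp_le_exp.2 hzn2) (Real.exp_pos _).le (by positivity)
      _ = 4 * s ^ 4 * Real.exp (s ^ 2) * ε ^ 2 := by ring
  have e2 : Complex.exp z - (1 - u) = (Complex.exp z - (1 + z)) + (z + u) := by ring
  rw [e2]
  calc ‖(Complex.exp z - (1 + z)) + (z + u)‖ ≤ ‖Complex.exp z - (1 + z)‖ + ‖z + u‖ :=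
        norm_add_le _ _
    _ ≤ 4 * s ^ 4 * Real.exp (s ^ 2) * ε ^ 2 + s ^ 2 * ε ^ 2 := add_le_add (h2.trans h3) h1
    _ = BB s * ε ^ 2 := by
        unfold BB
        ring

variable (κ ρ) in
/-- the correction factor -/
def gf (x : ℝ) (p : ℕ) : ℂ := Ef κ a ρ b x p * Complex.exp (zz κ a ρ b x p)

/-- a constant -/
def CC (s : ℝ) : ℝ := s ^ 4 + s ^ 2 * BB s + BB s + C0 s * (1 + s ^ 2 + BB s)

theorem gf_bound (H : Hy κ ρ s) {x : ℝ} (hx : 0 ≤ x) {p : ℕ} (hp : p.Prime) :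
    ‖gf κ a ρ b x p - 1‖ ≤ CC s * (1 / (p : ℝ)) ^ 2 := by
  have hs := H.pos
  have hp' := inv_prime hp
  have hE := Ef_expand a b H hx hp
  obtain ⟨hF, hP⟩ := exp_est a b H hx hp
  set ε : ℝ := 1 / (p : ℝ) with hε
  have h0 : 0 ≤ ε := hp'.1.le
  have h1 : ε ≤ 1 := by linarith [hp'.2]
  have hB : 0 ≤ BB s := by unfold BB; positivity
  set u := Fr κ a ρ b x p with hu
  set R := Ef κ a ρ b x p - (1 + u) with hR
  set R' := Complex.exp (zz κ a ρ b x p) - (1 - u) with hR'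
  have e : gf κ a ρ b x p - 1 = -(u * u) + u * R' + R' + R * (1 - u + R') := by
    unfold gf
    have e1 : Ef κ a ρ b x p = 1 + u + R := by rw [hR]; ring
    have e2 : Complex.exp (zz κ a ρ b x p) = 1 - u + R' := by rw [hR']; ring
    rw [e1, e2]
    ring
  rw [e]
  have hC0 := C0_nonneg hs
  have hε2 : ε ^ 2 ≤ 1 := pow_le_one₀ h0 h1
  have hR'1 : ‖R'‖ ≤ BB s := by
    refine hP.trans ?_
    have : BB s * ε ^ 2 ≤ BB s * 1 := by gcongr
    linarith
  have hu1 : ‖u‖ ≤ s ^ 2 := by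
    refine hF.trans ?_
    have : s ^ 2 * ε ≤ s ^ 2 * 1 := by gcongr
    linarith
  have b1 : ‖-(u * u)‖ ≤ s ^ 4 * ε ^ 2 := by
    rw [norm_neg, norm_mul]
    calc ‖u‖ * ‖u‖ ≤ (s ^ 2 * ε) * (s ^ 2 * ε) :=
          mul_le_mul hF hF (norm_nonneg _) (by positivity)
      _ = s ^ 4 * ε ^ 2 := by ring
  have b2 : ‖u * R'‖ ≤ s ^ 2 * (BB s * ε ^ 2) := by
    rw [norm_mul]
    exact mul_le_mul hu1 hP (norm_nonneg _) (by positivity)
  have b3 : ‖1 - u + R'‖ ≤ 1 + s ^ 2 + BB s := by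
    calc ‖1 - u + R'‖ ≤ ‖1 - u‖ + ‖R'‖ := norm_add_le _ _
      _ ≤ (‖(1 : ℂ)‖ + ‖u‖) + ‖R'‖ := by gcongr; exact norm_sub_le _ _
      _ ≤ (1 + s ^ 2) + BB s := by
          rw [norm_one]
          gcongr
  have b4 : ‖R * (1 - u + R')‖ ≤ (C0 s * ε ^ 2) * (1 + s ^ 2 + BB s) := by
    rw [norm_mul]
    exact mul_le_mul hE b3 (norm_nonneg _) (by positivity)
  calc ‖-(u * u) + u * R' + R' + R * (1 - u + R')‖
      ≤ ‖-(u * u)‖ + ‖u * R'‖ + ‖R'‖ + ‖R * (1 - u + R')‖ := by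
        refine (norm_add_le _ _).trans ?_
        gcongr
        refine (norm_add_le _ _).trans ?_
        gcongr
        exact norm_add_le _ _
    _ ≤ s ^ 4 * ε ^ 2 + s ^ 2 * (BB s * ε ^ 2) + BB s * ε ^ 2 +
        (C0 s * ε ^ 2) * (1 + s ^ 2 + BB s) := by gcongr
    _ = CC s * ε ^ 2 := by
        unfold CC
        ring

theorem slit {w : ℂ} (hw : ‖w‖ ≤ 1 / 2) : 1 - w ∈ Complex.slitPlane := by
  left
  have h2 := Complex.re_le_norm w
  rw [Complex.sub_re, Complex.one_re]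
  linarith

theorem gf_tendsto (H : Hy κ ρ s) {p : ℕ} (hp : p.Prime) :
    Tendsto (fun x : ℝ => gf κ a ρ b x p) (𝓝[>] 0) (𝓝 (gf κ a ρ b 0 p)) := by
  unfold gf
  refine (Ef_tendsto a b H hp).mul (Tendsto.cexp ?_)
  unfold zz
  refine tendsto_finsetSum _ fun i _ => ?_
  refine Tendsto.const_mul _ ?_
  exact ((wf_tendsto a b i hp).const_sub 1).clog
    (slit ((wf_norm a b le_rfl i hp).trans (inv_prime hp).2))

theorem gf_multipliable (H : Hy κ ρ s) {x : ℝ} (hx : 0 ≤ x) :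
    Multipliable fun p : Nat.Primes => gf κ a ρ b x p := by
  have h1 : Multipliable fun p : Nat.Primes => (1 + (gf κ a ρ b x p - 1)) := by
    apply multipliable_one_add_of_summable
    refine Summable.of_nonneg_of_le (fun p => norm_nonneg _) (fun p => ?_)
      (primes_summable.mul_left (CC s))
    exact gf_bound a b H hx p.2
  refine h1.congr fun p => ?_
  ring

theorem gf_tprod_tendsto (H : Hy κ ρ s) :
    Tendsto (fun x : ℝ => ∏' p : Nat.Primes, gf κ a ρ b x p) (𝓝[>] 0)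
      (𝓝 (∏' p : Nat.Primes, gf κ a ρ b 0 p)) := by
  have h1 := tendsto_tprod_one_add_of_dominated_convergence (𝓕 := 𝓝[>] (0 : ℝ))
    (f := fun (x : ℝ) (p : Nat.Primes) => gf κ a ρ b x p - 1)
    (g := fun p : Nat.Primes => gf κ a ρ b 0 p - 1)
    (bound := fun p : Nat.Primes => CC s * (1 / ((p : ℕ) : ℝ)) ^ 2)
    (primes_summable.mul_left (CC s)) (fun p => (gf_tendsto a b H p.2).sub_const 1) (by
      filter_upwards [self_mem_nhdsWithin] with x hx p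
      exact gf_bound a b H (le_of_lt hx) p.2)
  have e1 : ∀ x : ℝ, (∏' p : Nat.Primes, (1 + (gf κ a ρ b x p - 1))) =
      ∏' p : Nat.Primes, gf κ a ρ b x p := fun x => tprod_congr fun p => by ring
  simp only [e1] at h1
  exact h1

/-! ### The Euler product -/

theorem main_eq (H : Hy κ ρ s) {x : ℝ} (hx : 0 < x) : ∑' n, Fr κ a ρ b x n =
    (∏' p : Nat.Primes, gf κ a ρ b x p) * Complex.exp (∑ i : Fin k × Fin l, (al κ ρ i : ℂ) *
      Lz (1 + (2 + Complex.I * ((a i.1 - b i.2 : ℝ) : ℂ)) * x)) := by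
  have h1 : HasProd (fun p : Nat.Primes => Ef κ a ρ b x p) (∑' n, Fr κ a ρ b x n) :=
    EulerProduct.eulerProduct_hasProd (Fr_one κ a ρ b x) (fun {m n} h => Fr_mult κ a ρ b x h)
      (Fr_summable a b H hx) (Fr_zero κ a ρ b x)
  have h2 := (gf_multipliable a b H hx.le).hasProd
  have h3 : HasSum (fun p : Nat.Primes => ∑ i : Fin k × Fin l, (al κ ρ i : ℂ) *
      -Complex.log (1 - ((p : ℕ) : ℂ) ^ (-(1 + (2 + Complex.I * ((a i.1 - b i.2 : ℝ) : ℂ)) * x))))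
      (∑ i : Fin k × Fin l, (al κ ρ i : ℂ) *
      Lz (1 + (2 + Complex.I * ((a i.1 - b i.2 : ℝ) : ℂ)) * x)) := by
    refine hasSum_sum fun i _ => ?_
    refine HasSum.mul_left _ ?_
    refine (Lz_summable ?_).hasSum
    simp
    exact hx
  have h4 := h3.cexp
  refine HasProd.unique h1 ((h2.mul h4).congr_fun fun p => ?_)
  unfold gf
  rw [Function.comp_apply, mul_assoc, ← Complex.exp_add]
  have h5 : zz κ a ρ b x p + ∑ i : Fin k × Fin l, (al κ ρ i : ℂ) *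
      -Complex.log (1 - ((p : ℕ) : ℂ) ^ (-(1 + (2 + Complex.I * ((a i.1 - b i.2 : ℝ) : ℂ)) * x))) =
      0 := by
    unfold zz
    rw [← Finset.sum_add_distrib]
    refine Finset.sum_eq_zero fun i _ => ?_
    rw [wf_eq a b x i p.2]
    ring
  rw [h5, Complex.exp_zero, mul_one]

theorem gf_zero (H : Hy κ ρ s) {p : ℕ} (hp : p.Prime) : gf κ a ρ b 0 p =
    (((1 - 1 / (p : ℝ)) ^ (s ^ 2) * ∑' m : ℕ, lc s m ^ 2 * (1 / (p : ℝ)) ^ m : ℝ) : ℂ) := by
  have hp' := inv_prime hp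
  have hw : ∀ i : Fin k × Fin l, wf a b 0 i p = ((1 / (p : ℝ) : ℝ) : ℂ) := by
    intro i
    unfold wf
    rw [mul_zero, mul_zero, tz_apply _ hp.ne_zero, Complex.ofReal_zero, zero_mul, neg_zero,
      Complex.cpow_zero, map_one, mul_zero, add_zero, Real.rpow_neg_one, one_div, one_mul, one_mul]
  have hd : ∀ (m : ℕ) (κ' c : Fin m → ℝ) (n : ℕ), dk 0 κ' c n = (dv (∑ j, κ' j) n : ℂ) := by
    intro m κ' c n
    unfold dk
    rw [prod_zero_apply univ κ' _ (fun j _ => mul_zero _) n]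
  have hF : ∀ m : ℕ, Fr κ a ρ b 0 (p ^ m) = ((lc s m ^ 2 * (1 / (p : ℝ)) ^ m : ℝ) : ℂ) := by
    intro m
    unfold Fr
    rw [hd, hd, H.ks, H.rs, Complex.conj_ofReal, dv_prime_pow _ hp, mul_zero, add_zero,
      Real.rpow_neg_one]
    push_cast
    rw [one_div, inv_pow]
    ring
  have hE : Ef κ a ρ b 0 p = ((∑' m : ℕ, lc s m ^ 2 * (1 / (p : ℝ)) ^ m : ℝ) : ℂ) := by
    unfold Ef
    simp only [hF]
    rw [Complex.ofReal_tsum]
  have hlog : Complex.exp (zz κ a ρ b 0 p) = (((1 - 1 / (p : ℝ)) ^ (s ^ 2) : ℝ) : ℂ) := by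
    have h1 : 0 < 1 - 1 / (p : ℝ) := by linarith [hp'.2]
    unfold zz
    simp only [hw]
    rw [← Finset.sum_mul, ← Complex.ofReal_sum, al_sum H, Real.rpow_def_of_pos h1,
      Complex.ofReal_exp]
    congr 1
    push_cast
    rw [mul_comm]
    congr 1
    rw [Complex.ofReal_log h1.le]
    push_cast
    rfl
  unfold gf
  rw [hE, hlog]
  push_cast
  ring

theorem gf_tprod_zero (H : Hy κ ρ s) : ∏' p : Nat.Primes, gf κ a ρ b 0 p = (aF s : ℂ) := by
  have h1 := (aF_multipliable H.pos).hasProd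
  have h2 := h1.map (Complex.ofRealHom : ℝ →+* ℂ) Complex.continuous_ofReal
  refine (h2.congr_fun ?_).tprod_eq
  intro p
  rw [gf_zero a b H p.2]
  rfl

/-- **DIAG**, real exponents -/
theorem done : Pool.Agent.Y753.SH.S_DIAGR := by
  intro k l κ a ρ b s hs hκ hρ hks hrs
  have H : Hy κ ρ s := ⟨hs, hκ, hρ, hks, hrs⟩
  have h1 : Tendsto (fun x : ℝ => Complex.exp (∑ i : Fin k × Fin l, (al κ ρ i : ℂ) *
      (((Real.log (2 * x) : ℝ) : ℂ) +
      Lz (1 + (2 + Complex.I * ((a i.1 - b i.2 : ℝ) : ℂ)) * x)))) (𝓝[>] 0)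
      (𝓝 (Complex.exp (∑ i : Fin k × Fin l, (al κ ρ i : ℂ) *
        -Complex.log (1 + Complex.I * ((a i.1 - b i.2 : ℝ) : ℂ) / 2)))) := by
    refine Tendsto.cexp ?_
    refine tendsto_finsetSum _ fun i _ => ?_
    exact (Lz_tendsto (a i.1 - b i.2)).const_mul _
  have h2 := (gf_tprod_tendsto a b H).mul h1
  rw [gf_tprod_zero a b H] at h2
  have e1 : Complex.exp (∑ i : Fin k × Fin l, (al κ ρ i : ℂ) *
        -Complex.log (1 + Complex.I * ((a i.1 - b i.2 : ℝ) : ℂ) / 2)) =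
      ∏ j, ∏ i, (1 + Complex.I * ((a j - b i : ℝ) : ℂ) / 2) ^ (-((κ j * ρ i : ℝ) : ℂ)) := by
    rw [Complex.exp_sum, Fintype.prod_prod_type]
    refine Finset.prod_congr rfl fun j _ => Finset.prod_congr rfl fun i _ => ?_
    have hc : (1 : ℂ) + Complex.I * ((a j - b i : ℝ) : ℂ) / 2 ≠ 0 := by
      intro h
      have := congrArg Complex.re h
      simp at this
    rw [Complex.cpow_def_of_ne_zero hc]
    congr 1
    unfold al
    ring
  rw [e1] at h2
  refine h2.congr' ?_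
  filter_upwards [self_mem_nhdsWithin] with x hx
  have hx0 : 0 < x := hx
  have h3 := main_eq a b H hx0
  unfold Fr at h3
  rw [h3]
  have e2 : ∑ i : Fin k × Fin l, (al κ ρ i : ℂ) * (((Real.log (2 * x) : ℝ) : ℂ) +
      Lz (1 + (2 + Complex.I * ((a i.1 - b i.2 : ℝ) : ℂ)) * x)) =
      ((s ^ 2 * Real.log (2 * x) : ℝ) : ℂ) + ∑ i : Fin k × Fin l, (al κ ρ i : ℂ) *
      Lz (1 + (2 + Complex.I * ((a i.1 - b i.2 : ℝ) : ℂ)) * x) := by
    simp only [mul_add]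
    rw [Finset.sum_add_distrib, ← Finset.sum_mul, ← Complex.ofReal_sum, al_sum H]
    push_cast
    ring
  rw [e2, Complex.exp_add]
  have e3 : (((2 * x) ^ (s ^ 2) : ℝ) : ℂ) = Complex.exp ((s ^ 2 * Real.log (2 * x) : ℝ) : ℂ) := by
    rw [Real.rpow_def_of_pos (by positivity), Complex.ofReal_exp]
    congr 2
    ring
  rw [e3]
  ring

end

end Pool.Agent.Y901.SHR
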